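import Pool.Agent.H75.UZ.Wl

/-! W1: the order of towers. -/

set_option linter.unusedVariables false

open Ordinal Order Set
open scoped ZFSet

namespace SE.UZ

open SF

variable {D : Cx} {κ : V} {b : BS}

/-- the data of a tower at an index -/
theorem w1_c (hPWE : T_PWE) (hb : b.Ok D κ) (hD : D.Ok) {T ξ : V} (hT : b.Tw D κ T) (hξ : ξ ∈ κ) :
    b.Wd D (b.rho D ξ) (tK T ξ) (tH T ξ) ∧ tK T ξ ∈ b.Ob ∧
      His D (b.u (tK T ξ)) (tH T ξ) (b.rho D ξ) := by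
  have h1 := (hT.w ξ hξ).w
  have h2 := ((hPWE b D _ _ _).1 h1).wo
  exact ⟨h1, h2.o.o, h2.hs⟩

/-- entries of a face of a tower -/
theorem w1_le (hPHA : T_PHA) (hPWE : T_PWE) (hBL : T_BL) (hA : Amb D κ) (hb : b.Ok D κ) {C T : V}
    (hl : b.TLe D κ C T) {ξ : V} (hξ : ξ ∈ κ) {ρ G : V} (hρ : D.N ρ) (hc : Cld D.L ρ)
    (hsub : b.u (tK T ξ) ⊆ ρ) (hG : D.Gn ρ G) {X : V} (hX : RR D (b.u (tK C ξ)) G X) (y : V)
    {e : Ordinal.{0}} (he : e < b.rho D ξ) : Ent (tH C ξ) G X y e ↔ Ent (tH T ξ) G X y e := by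
  obtain ⟨-, -, h1⟩ := w1_c hPWE hb hA.ok hl.t hξ
  obtain ⟨-, -, h2⟩ := w1_c hPWE hb hA.ok hl.t' hξ
  exact wl_lw hPHA hBL hA hb (hl.le ξ hξ) h1 h2 hρ hc hsub hG hX y he

theorem pf_W1 (hW0 : T_W0) (hPHA : T_PHA) (hPLW : T_PLW) (hPWE : T_PWE) (hQRN : T_QRN)
    (hBL : T_BL) (hBM : T_BM) (hBD : T_BD) : T_W1 := by
  intro D κ b hA hb
  have hD := hA.ok
  have c4 : ∀ C T, b.TLe D κ C T → b.ut κ C ⊆ b.ut κ T ∧ ∀ ξ ∈ κ, b.Le (tK C ξ) (tK T ξ) := by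
    intro C T hl
    refine ⟨fun i hi => ?_, fun ξ hξ => (hl.le ξ hξ).le⟩
    obtain ⟨ξ, hξ, h1⟩ := ((hW0 D κ b hA hb C hl.t).2.2.1 i).1 hi
    rw [hl.u ξ hξ, ZFSet.mem_inter] at h1
    exact ((hW0 D κ b hA hb T hl.t').2.2.1 i).2 ⟨ξ, hξ, h1.1⟩
  have c1 : ∀ T, b.Tw D κ T → b.TLe D κ T T := by
    intro T hT
    refine ⟨hT, hT, fun ξ hξ => ?_, fun ξ hξ => ?_⟩
    · ext i
      rw [ZFSet.mem_inter]
      exact ⟨fun h => ⟨h, ((hW0 D κ b hA hb T hT).2.2.2.1 ξ hξ).2.2 h⟩, fun h => h.1⟩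
    · exact (hPLW D κ hA b hb).1 _ _ _ (w1_c hPWE hb hD hT hξ).2.1
  have c2 : ∀ A B C, b.TLe D κ A B → b.TLe D κ B C → b.TLe D κ A C := by
    intro A B C h1 h2
    refine ⟨h1.t, h2.t', fun ξ hξ => ?_, fun ξ hξ => ?_⟩
    · rw [h1.u ξ hξ, h2.u ξ hξ]
      have h3 := (c4 A B h1).1
      ext i
      simp only [ZFSet.mem_inter]
      exact ⟨fun h => ⟨h.1.1, h.2⟩, fun h => ⟨⟨h.1, h3 h.2⟩, h.2⟩⟩
    · obtain ⟨-, oA, sA⟩ := w1_c hPWE hb hD h1.t hξ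
      obtain ⟨-, oB, sB⟩ := w1_c hPWE hb hD h1.t' hξ
      exact (hPLW D κ hA b hb).2.1 _ _ _ _ _ _ _ _ _ oA sA sB (h1.le ξ hξ) (h2.le ξ hξ)
  refine ⟨c1, c2, ?_, c4, ?_⟩
  · intro C C' T h1 h2 hsub
    have hu : ∀ ξ ∈ κ, b.u (tK C ξ) ⊆ b.u (tK C' ξ) := by
      intro ξ hξ i hi
      rw [h1.u ξ hξ, ZFSet.mem_inter] at hi
      rw [h2.u ξ hξ, ZFSet.mem_inter]
      exact ⟨hi.1, hsub hi.2⟩
    refine ⟨h1.t, h2.t, fun ξ hξ => ?_, fun ξ hξ => ?_⟩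
    · ext i
      rw [ZFSet.mem_inter]
      constructor
      · intro hi
        exact ⟨hu ξ hξ hi, ((hW0 D κ b hA hb C h1.t).2.2.2.1 ξ hξ).2.2 hi⟩
      · rintro ⟨hi, hi2⟩
        rw [h2.u ξ hξ, ZFSet.mem_inter] at hi
        rw [h1.u ξ hξ, ZFSet.mem_inter]
        exact ⟨hi.1, hi2⟩
    · obtain ⟨-, oC, sC⟩ := w1_c hPWE hb hD h1.t hξ
      obtain ⟨-, oC', sC'⟩ := w1_c hPWE hb hD h2.t hξ
      obtain ⟨-, oT, sT⟩ := w1_c hPWE hb hD h1.t' hξ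
      obtain ⟨nC, cC, tC⟩ := wl_o hb hD oC
      obtain ⟨nC', cC', tC'⟩ := wl_o hb hD oC'
      obtain ⟨nT, cT, tT⟩ := wl_o hb hD oT
      have s2 : b.u (tK C' ξ) ⊆ b.u (tK T ξ) := (hb.leO _ _ (h2.le ξ hξ).le).2.2
      refine ⟨hb.sub _ _ _ (h1.le ξ hξ).le (h2.le ξ hξ).le (hu ξ hξ), ?_⟩
      intro G' hG' X hX y e
      replace hG' : D.Gn (b.u (tK C' ξ)) G' := hG'
      replace hX : RR D (b.u (tK C ξ)) G' X := hX
      obtain ⟨G, hG, hr⟩ := wl_ext hBD hBM hD nC' nT cT s2 tC' hG'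
      have hBL' := (hBL D hD _ G nT cT hG).2 _ nC' s2 tC'
      have hX' : RR D (b.u (tK C ξ)) G X := by
        unfold RR at hX ⊢
        rwa [← hr, hBL'.2.2.2.2.2.2 _ (hu ξ hξ)] at hX
      have hX2 : RR D (b.u (tK C' ξ)) G X := by
        have h9 := (hQRN D hD _ G _ nT cT hG nC (fun i hi => s2 (hu ξ hξ hi)) tC).2.2.2.2.2.2.2.1
        exact h9 _ nC' (hu ξ hξ) s2 tC' X hX'
      have e1 := ((hPHA D hD _ _ _ _ nC cC nT cT (fun i hi => s2 (hu ξ hξ hi)) sC).1 G hG).1 X y e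
      have e2 := ((hPHA D hD _ _ _ _ nC cC nC' cC' (hu ξ hξ) sC).1 G' hG').1 X y e
      have e3 := ((hPHA D hD _ _ _ _ nC' cC' nT cT s2 sC').1 G hG).1 X y e
      rw [← hr, hBL'.2.2.2.2.2.2 _ (hu ξ hξ)] at e2
      rw [← hr]
      constructor
      · rintro ⟨h5, h6⟩
        refine ⟨?_, h6⟩
        have h7 : Ent (tH C ξ) G X y e := e1.1.2 (e2.1.1 h5)
        have h8 := (w1_le hPHA hPWE hBL hA hb h1 hξ nT cT (fun _ h => h) hG hX' y h6).1 h7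
        exact e3.1.1 ((w1_le hPHA hPWE hBL hA hb h2 hξ nT cT (fun _ h => h) hG hX2 y h6).2 h8)
      · rintro ⟨h5, h6⟩
        refine ⟨?_, h6⟩
        have h7 : Ent (tH C' ξ) G X y e := e3.1.2 h5
        have h8 := (w1_le hPHA hPWE hBL hA hb h2 hξ nT cT (fun _ h => h) hG hX2 y h6).1 h7
        exact e2.1.2 (e1.1.1
          ((w1_le hPHA hPWE hBL hA hb h1 hξ nT cT (fun _ h => h) hG hX' y h6).2 h8))
  · intro C T hl ρ hρ hc hsub G hG X hX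
    obtain ⟨-, -, mC, wC, lC, rC⟩ := hW0 D κ b hA hb C hl.t
    obtain ⟨-, -, mT, wT, lT, rT⟩ := hW0 D κ b hA hb T hl.t'
    have sC : b.ut κ C ⊆ ρ := fun i hi => hsub ((c4 C T hl).1 hi)
    obtain ⟨aC, bC, eC, fC, dC, gC⟩ := rC ρ hρ hc sC G hG
    obtain ⟨aT, bT, eT, fT, dT, gT⟩ := rT ρ hρ hc hsub G hG
    have key : ∀ y, Ett κ C G X y ↔ Ett κ T G X y := by
      intro y
      constructor
      · rintro ⟨ξ, hξ, e, h1⟩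
        obtain ⟨h2, -, h3⟩ := eC ξ hξ X y e h1
        exact ⟨ξ, hξ, e, (w1_le hPHA hPWE hBL hA hb hl hξ hρ hc
          (fun i hi => hsub ((wT ξ hξ).2.2 hi)) hG h2 y h3).1 h1⟩
      · rintro ⟨η, hη, e, h1⟩
        obtain ⟨ξ, hξ, h2⟩ := (aC X).1 hX
        obtain ⟨ζ, hζ, h3, h4, -⟩ := wl_max hA.ord hξ hη
        have h5 := ((bT η hη ζ hζ h4).2 X y e).1 h1
        have h6 := (bC ξ hξ ζ hζ h3).1 X h2
        exact ⟨ζ, hζ, e, (w1_le hPHA hPWE hBL hA hb hl hζ hρ hc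
          (fun i hi => hsub ((wT ζ hζ).2.2 hi)) hG h6 y (eT ζ hζ X y e h5.2.1).2.2).2 h5.2.1⟩
    refine ⟨?_, key⟩
    rw [dC, dT]
    exact exists_congr key

end SE.UZ
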