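import Pool.Agent.H75.UZ.Wm

/-! W2: meets of towers. -/

set_option linter.unusedVariables false

open Ordinal Order Set
open scoped ZFSet

namespace SE.UZ

open SF _root_.UZ

variable {D : Cx} {κ : V} {b : BS}

theorem w2_gg {G s s' : V} (h : s' ⊆ s) : gs (gs G s) s' = gs G s' := by
  ext p
  rw [wl_gs, wl_gs, wl_gs]
  exact ⟨fun h1 => ⟨h1.1.1, h1.2⟩, fun h1 => ⟨⟨h1.1, fun i hi => h (h1.2 hi)⟩, h1.2⟩⟩

theorem w2_rr {G s s' x : V} (h : s' ⊆ s) : RR D s' (gs G s) x ↔ RR D s' G x := by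
  unfold RR
  rw [w2_gg h]

theorem w2_eg {s t h G X y : V} {σ e : Ordinal.{0}} (his : His D s h σ) (hst : s ⊆ t) :
    Ent h (gs G t) X y e ↔ Ent h G X y e := by
  constructor
  · rintro ⟨q, hq, X', Y', h1, h2, h3⟩
    obtain ⟨q1, hq1, X1, Y1, e1, he1, hX1, hY1, h4⟩ := his.m _ h1
    obtain ⟨h5, h6⟩ := ZFSet.pair_injective h4
    obtain ⟨h7, h8⟩ := ZFSet.pair_injective h6
    obtain ⟨h9, h10⟩ := ZFSet.pair_injective h8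
    subst h5 h7 h9
    rw [wl_ev hX1.2 hst] at h2
    rw [wl_ev hY1.2 hst] at h3
    exact ⟨q, (wl_gs.1 hq).1, X', Y', h1, h2, h3⟩
  · rintro ⟨q, hq, X', Y', h1, h2, h3⟩
    obtain ⟨q1, hq1, X1, Y1, e1, he1, hX1, hY1, h4⟩ := his.m _ h1
    obtain ⟨h5, h6⟩ := ZFSet.pair_injective h4
    obtain ⟨h7, h8⟩ := ZFSet.pair_injective h6
    obtain ⟨h9, h10⟩ := ZFSet.pair_injective h8
    subst h5 h7 h9
    exact ⟨q, wl_gs.2 ⟨hq, fun i hi => hst (wl_dm hq1 hi)⟩, X', Y', h1,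
      by rw [wl_ev hX1.2 hst]; exact h2, by rw [wl_ev hY1.2 hst]; exact h3⟩

theorem w2_dc {s t h G X : V} {σ : Ordinal.{0}} (his : His D s h σ) (hst : s ⊆ t) :
    Dcc h (gs G t) X ↔ Dcc h G X := by
  unfold Dcc
  exact exists_congr fun y => exists_congr fun e => w2_eg his hst

/-- worlds of the stages `ρ_ξ` -/
theorem w2_wr (hPWE : T_PWE) (hb : b.Ok D κ) (hD : D.Ok) {ξ p : V} (h : b.Wr D ξ p) :
    b.Obs (fst p) ∧ D.N (b.u (fst p)) ∧ Cld D.L (b.u (fst p)) ∧ Tr (b.u (fst p)) ∧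
      His D (b.u (fst p)) (snd p) (b.rho D ξ) := by
  have h1 := (hPWE b D _ _ _).1 h.w
  obtain ⟨a, c, d⟩ := wl_o hb hD h1.wo.o.o
  exact ⟨h1.wo.o, a, c, d, h1.wo.hs⟩

/-- existence of the family of the meets -/
theorem w2_fam (hW2a : T_W2a) (hNT : T_NT) (hCHO : T_CHO) (hRH : T_RH) (hA : Amb D κ)
    (hb : b.Ok D κ) {C C' T : V} (h1 : b.TLe D κ C T) (h2 : b.TLe D κ C' T) :
    ∃ E, D.N E ∧ E = resS κ (app E) ∧ ∀ ξ ∈ κ, b.Wr D ξ (app E ξ) ∧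
      b.Lr D ξ (app E ξ) (app T ξ) ∧ b.u (tK E ξ) = b.u (tK C ξ) ∩ b.u (tK C' ξ) := by
  have hD := hA.ok
  have kz : ZFm D.N := hD.zfc.toZFCm.toZFm
  obtain ⟨A, nA, hA1, ⟨S1, nS1, hS1⟩, ⟨S2, nS2, hS2⟩, -⟩ := hNT D κ b hA hb
  have nκ : D.N κ := wl_N hD hA.kH
  have nT := h1.t'.n
  have nC := h1.t.n
  have nC' := h2.t.n
  have mT : ∀ ξ ∈ κ, app T ξ ∈ A := fun ξ hξ => (hA1 _).2 ⟨ξ, hξ, h1.t'.w ξ hξ⟩
  obtain ⟨S, hS⟩ : ∃ S, S = (ZFSet.prod κ A).sep (fun z =>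
      ZFSet.pair (fst z) (ZFSet.pair (snd z) (snd z)) ∈ S1 ∧
      ZFSet.pair (fst z) (ZFSet.pair (snd z) (app T (fst z))) ∈ S2 ∧
      app b.U (fst (snd z)) = app b.U (fst (app C (fst z))) ∩ app b.U (fst (app C' (fst z)))) :=
    ⟨_, rfl⟩
  have v0 : TN D.N (fun u => u 0) := TN.var kz 0
  have f0 : TN D.N (fun u => fst (u 0)) := TN.fst kz v0
  have s0 : TN D.N (fun u => snd (u 0)) := TN.snd kz v0
  have nS : D.N S := by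
    rw [hS]
    refine DN.sepN kz (S := fun u => ZFSet.pair (fst (u 0)) (ZFSet.pair (snd (u 0)) (snd (u 0))) ∈ S1 ∧
      ZFSet.pair (fst (u 0)) (ZFSet.pair (snd (u 0)) (app T (fst (u 0)))) ∈ S2 ∧
      app b.U (fst (snd (u 0))) = app b.U (fst (app C (fst (u 0)))) ∩
        app b.U (fst (app C' (fst (u 0))))) ?_
      (TN.mem kz (TN.prod kz (TN.cst nκ) (TN.cst nA)) (u := fun _ => A) (fun _ => nA))
      (u := fun _ => A) (fun _ => nA)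
    refine (DN.mem kz (TN.pair kz f0 (TN.pair kz s0 s0)) (TN.cst nS1)).and kz
      ((DN.mem kz (TN.pair kz f0 (TN.pair kz s0 (TN.app kz (TN.cst nT) f0))) (TN.cst nS2)).and kz
        (DN.eq kz (TN.app kz (TN.cst hb.nU) (TN.fst kz s0)) (TN.inter kz
          (TN.app kz (TN.cst hb.nU) (TN.fst kz (TN.app kz (TN.cst nC) f0)))
          (TN.app kz (TN.cst hb.nU) (TN.fst kz (TN.app kz (TN.cst nC') f0))))))
  have mS : ∀ ξ ∈ κ, ∀ q, ZFSet.pair ξ q ∈ S ↔ b.Wr D ξ q ∧ b.Lr D ξ q (app T ξ) ∧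
      b.u (fst q) = b.u (tK C ξ) ∩ b.u (tK C' ξ) := by
    intro ξ hξ q
    rw [hS, ZFSet.mem_sep, ZFSet.pair_mem_prod, fst_pair, snd_pair]
    constructor
    · rintro ⟨⟨-, h3⟩, h4, h5, h6⟩
      exact ⟨(hS1 ξ hξ q h3 q h3).1 h4, (hS2 ξ hξ q h3 _ (mT ξ hξ)).1 h5, h6⟩
    · rintro ⟨h4, h5, h6⟩
      have h3 : q ∈ A := (hA1 _).2 ⟨ξ, hξ, h4⟩
      exact ⟨⟨hξ, h3⟩, (hS1 ξ hξ q h3 q h3).2 h4, (hS2 ξ hξ q h3 _ (mT ξ hξ)).2 h5, h6⟩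
  obtain ⟨E, nE, fE, hE⟩ := hCHO D hD κ S nκ nS (by
    intro ξ hξ
    obtain ⟨E, hE, h3, h4, h5, -, -⟩ := hW2a D κ b hA hb _ ((hRH D κ b hA hb).1 ξ hξ).2.2
      _ _ _ _ _ _ (h1.t.w ξ hξ).w (h2.t.w ξ hξ).w (h1.t'.w ξ hξ).w (h1.le ξ hξ) (h2.le ξ hξ)
    refine ⟨ZFSet.pair E hE, (mS ξ hξ _).2 ⟨⟨?_, ?_⟩, ?_, ?_⟩⟩
    · rw [fst_pair, snd_pair]
    · rw [fst_pair, snd_pair]
      exact h3
    · unfold BS.Lr
      rw [fst_pair, snd_pair]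
      exact h5
    · rw [fst_pair]
      exact h4)
  exact ⟨E, nE, fE, fun ξ hξ => (mS ξ hξ _).1 (hE ξ hξ)⟩

theorem pf_W2 (hW0 : T_W0) (hW2a : T_W2a) (hNT : T_NT) (hCHO : T_CHO) (hPWE : T_PWE)
    (hPHA : T_PHA) (hPLW : T_PLW) (hLL : T_LL) (hQRN : T_QRN) (hRH : T_RH) (hBL : T_BL)
    (hBM : T_BM) (hBD : T_BD) : T_W2 := by
  intro D κ b hA hb C C' T h1 h2
  have hD := hA.ok
  have kz : ZFm D.N := hD.zfc.toZFCm.toZFm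
  obtain ⟨E, nE, fE, hE⟩ := w2_fam hW2a hNT hCHO hRH hA hb h1 h2
  have eU : ∀ ξ ∈ κ, b.u (tK E ξ) = b.u (tK C ξ) ∩ b.u (tK C' ξ) := fun ξ hξ => (hE ξ hξ).2.2
  have wC := hW0 D κ b hA hb C h1.t
  have wC' := hW0 D κ b hA hb C' h2.t
  have wT := hW0 D κ b hA hb T h1.t'
  have iE : ∀ ξ ∈ κ, b.Obs (tK E ξ) ∧ D.N (b.u (tK E ξ)) ∧ Cld D.L (b.u (tK E ξ)) ∧
      Tr (b.u (tK E ξ)) ∧ His D (b.u (tK E ξ)) (tH E ξ) (b.rho D ξ) := fun ξ hξ =>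
    w2_wr hPWE hb hD (hE ξ hξ).1
  have iC : ∀ ξ ∈ κ, b.Obs (tK C ξ) ∧ D.N (b.u (tK C ξ)) ∧ Cld D.L (b.u (tK C ξ)) ∧
      Tr (b.u (tK C ξ)) ∧ His D (b.u (tK C ξ)) (tH C ξ) (b.rho D ξ) := fun ξ hξ =>
    w2_wr hPWE hb hD (h1.t.w ξ hξ)
  have iT : ∀ ξ ∈ κ, b.Obs (tK T ξ) ∧ D.N (b.u (tK T ξ)) ∧ Cld D.L (b.u (tK T ξ)) ∧
      Tr (b.u (tK T ξ)) ∧ His D (b.u (tK T ξ)) (tH T ξ) (b.rho D ξ) := fun ξ hξ =>
    w2_wr hPWE hb hD (h1.t'.w ξ hξ)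
  have lE : ∀ ξ ∈ κ, b.LW D (b.rho D ξ) (tK E ξ) (tH E ξ) (tK T ξ) (tH T ξ) := fun ξ hξ =>
    (hE ξ hξ).2.1
  have lC : ∀ ξ ∈ κ, b.LW D (b.rho D ξ) (tK C ξ) (tH C ξ) (tK T ξ) (tH T ξ) := fun ξ hξ =>
    h1.le ξ hξ
  have sET : ∀ ξ ∈ κ, b.u (tK E ξ) ⊆ b.u (tK T ξ) := fun ξ hξ =>
    (hb.leO _ _ (lE ξ hξ).le).2.2
  have sCT : ∀ ξ ∈ κ, b.u (tK C ξ) ⊆ b.u (tK T ξ) := fun ξ hξ =>
    (hb.leO _ _ (lC ξ hξ).le).2.2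
  have sEC : ∀ ξ ∈ κ, b.u (tK E ξ) ⊆ b.u (tK C ξ) := fun ξ hξ i hi => by
    rw [eU ξ hξ] at hi
    exact (ZFSet.mem_inter.1 hi).1
  have lt : ∀ ξ ∈ κ, ∀ η ∈ κ, ξ ∈ η → b.rho D ξ < b.rho D η := fun ξ hξ η hη h =>
    ((hRH D κ b hA hb).2.1 ξ hξ η hη).1 h
  have tr : ∀ ξ ∈ κ, ∀ η ∈ κ, ξ ∈ η → ξ ⊆ η := fun ξ hξ η hη h => by
    obtain ⟨β, rfl⟩ := IsOrd.of_mem hA.ord hη
    exact (ZFSet.isOrdinal_toZFSet β).isTransitive _ h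
  have sE : ∀ ξ ∈ κ, ∀ η ∈ κ, ξ ⊆ η → b.u (tK E ξ) ⊆ b.u (tK E η) := fun ξ hξ η hη h i hi => by
    rw [eU ξ hξ] at hi
    rw [eU η hη]
    exact ZFSet.mem_inter.2 ⟨(wC.2.2.2.2.1 ξ hξ η hη h).2 (ZFSet.mem_inter.1 hi).1,
      (wC'.2.2.2.2.1 ξ hξ η hη h).2 (ZFSet.mem_inter.1 hi).2⟩
  have tE : b.Tw D κ E := by
    refine ⟨nE, fE, fun ξ hξ => (hE ξ hξ).1, fun ξ hξ j hj => h1.t.tm ξ hξ j (sEC ξ hξ hj),
      ?_, ?_, ?_⟩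
    · intro ξ hξ η hη h
      have l1 : b.LW D (b.rho D ξ) (tK E ξ) (tH E ξ) (tK T η) (tH T η) :=
        (hPLW D κ hA b hb).2.1 _ _ _ _ _ _ _ _ _ (iE ξ hξ).1.o (iE ξ hξ).2.2.2.2
          (iT ξ hξ).2.2.2.2 (lE ξ hξ) (h1.t'.t0 ξ hξ η hη h)
      have l2 : b.LW D (b.rho D ξ) (tK E η) (tH E η) (tK T η) (tH T η) :=
        (hPLW D κ hA b hb).2.2.1 _ _ _ _ _ _ (lt ξ hξ η hη h).le (lE η hη)
      exact wl_mid hPHA hQRN hBL hBM hBD hA hb l1 l2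
        (hb.sub _ _ _ l1.le l2.le (sE ξ hξ η hη (tr ξ hξ η hη h)))
        (iE ξ hξ).2.2.2.2 (iE η hη).2.2.2.2 (iT η hη).2.2.2.2
    · intro ξ hξ ζ hζ η hη h3 h4 G' hG' X y hX hy hen
      obtain ⟨-, nEη, cEη, tEη, hiE⟩ := iE η hη
      obtain ⟨-, nTη, cTη, tTη, hiT⟩ := iT η hη
      have s1 : b.u (tK E ξ) ⊆ b.u (tK E η) :=
        sE ξ hξ η hη fun i hi => tr ζ hζ η hη h4 (h3 hi)
      obtain ⟨G, hG, rfl⟩ := wl_ext hBD hBM hD nEη nTη cTη (sET η hη) tEη hG'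
      change RR D (b.u (tK E ξ)) (gs G (b.u (tK E η))) X at hX
      change RR D (b.u (tK E ξ)) (gs G (b.u (tK E η))) y at hy
      change Ent (tH E η) (gs G (b.u (tK E η))) X y (b.rho D ζ) at hen
      rw [w2_rr s1] at hX hy
      rw [w2_eg hiE (fun _ h => h)] at hen
      have q1 := (hQRN D hD _ G _ nTη cTη hG (iE ξ hξ).2.1
        (fun i hi => sET η hη (s1 hi)) (iE ξ hξ).2.2.2.1).2.2.2.2.2.2.2.1
      have m1 : ∀ x, RR D (b.u (tK E ξ)) G x → RR D (b.u (tK T ξ)) G x := q1 _ (iT ξ hξ).2.1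
        (sET ξ hξ) (wT.2.2.2.2.1 ξ hξ η hη fun i hi => tr ζ hζ η hη h4 (h3 hi)).2
        (iT ξ hξ).2.2.2.1
      have m2 : ∀ x, RR D (b.u (tK E ξ)) G x → RR D (b.u (tK E η)) G x := q1 _ nEη s1
        (sET η hη) tEη
      rw [wl_lw hPHA hBL hA hb (lE η hη) hiE hiT nTη cTη (fun _ h => h) hG (m2 _ hX) y
        (lt ζ hζ η hη h4)] at hen
      exact h1.t'.t1 ξ hξ ζ hζ η hη h3 h4 G hG X y (m1 _ hX) (m1 _ hy) hen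
    · intro ξ hξ G' hG' X hX hd hn hp
      obtain ⟨η, hη0⟩ : ∃ η, η = insert ξ ξ := ⟨_, rfl⟩
      have hη : η ∈ κ := by
        rw [hη0]
        exact hA.suc ξ hξ
      have hξη : ξ ∈ η := by
        rw [hη0]
        exact ZFSet.mem_insert _ _
      rw [← hη0] at hG' ⊢
      obtain ⟨-, nEη, cEη, tEη, hiE⟩ := iE η hη
      obtain ⟨-, nCη, cCη, tCη, hiC⟩ := iC η hη
      obtain ⟨-, nTη, cTη, tTη, hiT⟩ := iT η hη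
      obtain ⟨-, nEξ, cEξ, tEξ, hiEξ⟩ := iE ξ hξ
      obtain ⟨-, nCξ, cCξ, tCξ, hiCξ⟩ := iC ξ hξ
      obtain ⟨-, nTξ, cTξ, tTξ, hiTξ⟩ := iT ξ hξ
      have s1 : b.u (tK E ξ) ⊆ b.u (tK E η) := sE ξ hξ η hη (tr ξ hξ η hη hξη)
      have s2 : b.u (tK C ξ) ⊆ b.u (tK C η) := (wC.2.2.2.2.1 ξ hξ η hη (tr ξ hξ η hη hξη)).2
      have s3 : b.u (tK T ξ) ⊆ b.u (tK T η) := (wT.2.2.2.2.1 ξ hξ η hη (tr ξ hξ η hη hξη)).2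
      obtain ⟨G, hG, rfl⟩ := wl_ext hBD hBM hD nEη nTη cTη (sET η hη) tEη hG'
      change RR D (b.u (tK E ξ)) (gs G (b.u (tK E η))) X at hX
      change ¬ Dcc (tH E ξ) (gs G (b.u (tK E η))) X at hd
      change b.Nn D (b.Wd D) (b.rho D ξ) (tK E ξ) (tH E ξ)
        (gs (gs G (b.u (tK E η))) (b.u (tK E ξ))) X at hn
      change ¬ b.Pt (tK E ξ) (gs G (b.u (tK E η))) X at hp
      change ∃ y, Ent (tH E η) (gs G (b.u (tK E η))) X y (b.rho D ξ)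
      rw [w2_rr s1] at hX
      rw [w2_dc hiEξ s1] at hd
      rw [w2_gg s1] at hn
      have q1 := hQRN D hD _ G _ nTη cTη hG nEξ (fun i hi => sET η hη (s1 hi)) tEξ
      have mon := q1.2.2.2.2.2.2.2.1
      have mC : RR D (b.u (tK C ξ)) G X :=
        mon _ nCξ (sEC ξ hξ) (fun i hi => sCT η hη (s2 hi)) tCξ X hX
      have mE : RR D (b.u (tK E η)) G X := mon _ nEη s1 (sET η hη) tEη X hX
      have mC2 : RR D (b.u (tK C η)) G X :=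
        mon _ nCη (fun i hi => s2 (sEC ξ hξ hi)) (sCT η hη) tCη X hX
      have hdC : ¬ Dcc (tH C ξ) G X := by
        rintro ⟨y, e, h3⟩
        have he := ((((hPHA D hD _ _ _ _ nCξ cCξ nTη cTη (fun i hi => sCT η hη (s2 hi)) hiCξ).1 G
          hG).1 X y e).2 h3).2.2.1
        rw [wl_lw hPHA hBL hA hb (lC ξ hξ) hiCξ hiTξ nTη cTη s3 hG mC y he,
          ← wl_lw hPHA hBL hA hb (lE ξ hξ) hiEξ hiTξ nTη cTη s3 hG hX y he] at h3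
        exact hd ⟨y, e, h3⟩
      have l3 : b.LW D (b.rho D ξ) (tK E ξ) (tH E ξ) (tK C ξ) (tH C ξ) :=
        wl_mid hPHA hQRN hBL hBM hBD hA hb (lE ξ hξ) (lC ξ hξ)
          (hb.sub _ _ _ (lE ξ hξ).le (lC ξ hξ).le (sEC ξ hξ)) hiEξ hiCξ hiTξ
      have gCξ := ((hBL D hD _ G nTη cTη hG).2 _ nCξ (fun i hi => sCT η hη (s2 hi)) tCξ).1
      have gCη := ((hBL D hD _ G nTη cTη hG).2 _ nCη (sCT η hη) tCη).1
      have hnC : b.Nn D (b.Wd D) (b.rho D ξ) (tK C ξ) (tH C ξ) (gs G (b.u (tK C ξ))) X := by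
        have h3 := ((hLL D κ b (b.rho D ξ) ⟨hA, hb, ((hRH D κ b hA hb).1 ξ hξ).2.2⟩).2.2.1
          _ _ _ _ (hE ξ hξ).1.w (h1.t.w ξ hξ).w l3 _ gCξ X ((w2_rr (sEC ξ hξ)).2 hX)).2.1
        have h4 : gs (gs G (b.u (tK C ξ))) (b.u (tK E ξ)) = gs G (b.u (tK E ξ)) :=
          w2_gg (sEC ξ hξ)
        rw [← h4] at hn
        exact h3.1 hn
      have q2 := (hQRN D hD _ G _ nTη cTη hG nEη (sET η hη) tEη).2.2.2.2.2.2.2.2.2.2.2.2.2.2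
      have q3 := (hQRN D hD _ G _ nTη cTη hG nCη (sCT η hη) tCη).2.2.2.2.2.2.2.2.2.2.2.2.2.2
      have hpC : ¬ b.Pt (tK C ξ) (gs G (b.u (tK C η))) X := by
        rintro ⟨i, hi, hk, h3⟩
        rw [(q3 i (s2 hi)).1] at h3
        have h4 : i ∈ b.u (tK E ξ) := q1.2.2.2.2.2.2.2.2.2.2.2.2.1 i (sCT η hη (s2 hi))
          (by rw [← h3]; exact hX)
        exact hp ⟨i, h4, hk, by rw [(q2 i (s1 h4)).1]; exact h3⟩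
      obtain ⟨y, hy⟩ : ∃ y, Ent (tH C η) (gs G (b.u (tK C η))) X y (b.rho D ξ) := by
        have h3 := h1.t.t2 ξ hξ
        rw [← hη0] at h3
        refine h3 _ gCη X ((w2_rr s2).2 mC) ?_ ?_ hpC
        · change ¬ Dcc (tH C ξ) (gs G (b.u (tK C η))) X
          rw [w2_dc hiCξ s2]
          exact hdC
        · change b.Nn D (b.Wd D) (b.rho D ξ) (tK C ξ) (tH C ξ)
            (gs (gs G (b.u (tK C η))) (b.u (tK C ξ))) X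
          rw [w2_gg s2]
          exact hnC
      refine ⟨y, ?_⟩
      rw [w2_eg hiE (fun _ h => h)]
      rw [w2_eg hiC (fun _ h => h), wl_lw hPHA hBL hA hb (lC η hη) hiC hiT nTη cTη (fun _ h => h)
        hG mC2 y (lt ξ hξ η hη hξη), ← wl_lw hPHA hBL hA hb (lE η hη) hiE hiT nTη cTη
        (fun _ h => h) hG mE y (lt ξ hξ η hη hξη)] at hy
      exact hy
  have wE := hW0 D κ b hA hb E tE
  have uE : b.ut κ E = b.ut κ C ∩ b.ut κ C' := by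
    ext i
    rw [ZFSet.mem_inter, wE.2.2.1, wC.2.2.1, wC'.2.2.1]
    constructor
    · rintro ⟨ξ, hξ, hi⟩
      rw [eU ξ hξ] at hi
      exact ⟨⟨ξ, hξ, (ZFSet.mem_inter.1 hi).1⟩, ⟨ξ, hξ, (ZFSet.mem_inter.1 hi).2⟩⟩
    · rintro ⟨⟨ξ, hξ, hi⟩, ⟨η, hη, hi'⟩⟩
      obtain ⟨ζ, hζ, h3, h4, -⟩ := wl_max hA.ord hξ hη
      refine ⟨ζ, hζ, ?_⟩
      rw [eU ζ hζ]
      exact ZFSet.mem_inter.2 ⟨(wC.2.2.2.2.1 ξ hξ ζ hζ h3).2 hi,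
        (wC'.2.2.2.2.1 η hη ζ hζ h4).2 hi'⟩
  refine ⟨E, ⟨tE, h1.t', ?_, fun ξ hξ => (hE ξ hξ).2.1⟩, uE⟩
  intro ξ hξ
  rw [eU ξ hξ, h1.u ξ hξ, h2.u ξ hξ, uE]
  ext i
  simp only [ZFSet.mem_inter]
  tauto

end SE.UZ
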