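import Pool.Agent.H75.UZ.Wm
import Pool.Agent.H41.UZ.Dc

/-! W2a: meets of worlds. -/

set_option linter.unusedVariables false

open Ordinal Order Set
open scoped ZFSet

namespace SE.UZ

open SF _root_.UZ

variable {D : Cx} {κ : V} {b : BS}

/-- entries, as a relation which is definable in the extension (arguments: `G`, `t`, `h`) -/
def w2R (M : V → Prop) (v : ℕ → V) : Prop := ∃ z ∈ v 2,
  z = ht (fst z) (fst (snd z)) (fst (snd (snd z))) (snd (snd (snd z))) ∧ fst z ∈ v 0 ∧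
  snd (snd (snd z)) = snd (snd (v 1)) ∧ ev (v 0) (fst (snd z)) = ev (v 0) (fst (v 1)) ∧
  ev (v 0) (fst (snd (snd z))) = ev (v 0) (fst (snd (v 1)))

theorem w2_dfb (hL : Lb) : Dfb ZFm w2R := by
  have tev : ∀ {f g : (V → Prop) → (ℕ → V) → V}, Tm ZFm f → Tm ZFm g →
      Tm ZFm (fun M v => ev (f M v) (g M v)) := fun hf hg =>
    Tm.at2 (F := fun _ x y => ev x y) hL.F.ev hf hg
  unfold w2R ht
  refine (Dfb.bex (R := fun _ v => v 0 = ZFSet.pair (fst (v 0)) (ZFSet.pair (fst (snd (v 0)))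
    (ZFSet.pair (fst (snd (snd (v 0)))) (snd (snd (snd (v 0)))))) ∧ fst (v 0) ∈ v 1 ∧
    snd (snd (snd (v 0))) = snd (snd (v 2)) ∧
    ev (v 1) (fst (snd (v 0))) = ev (v 1) (fst (v 2)) ∧
    ev (v 1) (fst (snd (snd (v 0)))) = ev (v 1) (fst (snd (v 2)))) ktr_zfm (Tm.var 2) ?_).congr
    fun M k v hv => Iff.rfl
  have a1 : Tm ZFm (fun _ v => fst (v 0)) := Tm.fst (Tm.var 0)
  have a2 : Tm ZFm (fun _ v => fst (snd (v 0))) := Tm.fst (Tm.snd (Tm.var 0))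
  have a3 : Tm ZFm (fun _ v => fst (snd (snd (v 0)))) := Tm.fst (Tm.snd (Tm.snd (Tm.var 0)))
  have a4 : Tm ZFm (fun _ v => snd (snd (snd (v 0)))) := Tm.snd (Tm.snd (Tm.snd (Tm.var 0)))
  exact (Dfb.eq (Tm.var 0) (Tm.pair a1 (Tm.pair a2 (Tm.pair a3 a4)))).and
    ((Dfb.mem a1 (Tm.var 1)).and ((Dfb.eq a4 (Tm.snd (Tm.snd (Tm.var 2)))).and
      ((Dfb.eq (tev (Tm.var 1) a2) (tev (Tm.var 1) (Tm.fst (Tm.var 2)))).and
        (Dfb.eq (tev (Tm.var 1) a3) (tev (Tm.var 1) (Tm.fst (Tm.snd (Tm.var 2))))))))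

theorem w2_ent {M : V → Prop} {G X Y h : V} {e : Ordinal.{0}} :
    w2R M (cons G (cons (ZFSet.pair X (ZFSet.pair Y e.toZFSet)) fun _ => h)) ↔
      Ent h G (ev G X) (ev G Y) e := by
  constructor
  · rintro ⟨z, hz, h1, h2, h3, h4, h5⟩
    have e1 : snd (snd (snd z)) = e.toZFSet := by
      refine h3.trans ?_
      show snd (snd (ZFSet.pair X (ZFSet.pair Y e.toZFSet))) = e.toZFSet
      rw [snd_pair, snd_pair]
    refine ⟨fst z, h2, fst (snd z), fst (snd (snd z)), ?_, ?_, ?_⟩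
    · rw [← e1, ← h1]
      exact hz
    · refine h4.trans ?_
      show ev G (fst (ZFSet.pair X (ZFSet.pair Y e.toZFSet))) = ev G X
      rw [fst_pair]
    · refine h5.trans ?_
      show ev G (fst (snd (ZFSet.pair X (ZFSet.pair Y e.toZFSet)))) = ev G Y
      rw [snd_pair, fst_pair]
  · rintro ⟨q, hq, X', Y', h1, h2, h3⟩
    refine ⟨ht q X' Y' e.toZFSet, h1, ?_, ?_, ?_, ?_, ?_⟩
    · unfold ht
      simp only [fst_pair, snd_pair]
    · unfold ht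
      rw [fst_pair]
      exact hq
    · show snd (snd (snd (ht q X' Y' e.toZFSet))) =
        snd (snd (ZFSet.pair X (ZFSet.pair Y e.toZFSet)))
      unfold ht
      simp only [snd_pair]
    · show ev G (fst (snd (ht q X' Y' e.toZFSet))) =
        ev G (fst (ZFSet.pair X (ZFSet.pair Y e.toZFSet)))
      unfold ht
      simp only [snd_pair, fst_pair]
      exact h2
    · show ev G (fst (snd (snd (ht q X' Y' e.toZFSet)))) =
        ev G (fst (snd (ZFSet.pair X (ZFSet.pair Y e.toZFSet))))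
      unfold ht
      simp only [snd_pair, fst_pair]
      exact h3

/-- the entries of a history are decided by a set of the ground model -/
theorem w2_dec (hL : Lb) (hD : D.Ok) {C h Ts : V} (hC : C ∈ D.H) (cC : Cld D.L C) (nh : D.N h)
    (nT : D.N Ts) : ∃ O, D.N O ∧ (∀ z ∈ O, ∃ t ∈ Ts, ∃ q ∈ D.P C, z = ZFSet.pair t q) ∧
      ∀ X Y (e : Ordinal.{0}), ZFSet.pair X (ZFSet.pair Y e.toZFSet) ∈ Ts → ∀ G, D.Gn C G →
        (Ent h G (ev G X) (ev G Y) e ↔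
          ∃ q ∈ G, ZFSet.pair (ZFSet.pair X (ZFSet.pair Y e.toZFSet)) q ∈ O) := by
  have kz := hD.zfm
  have nC : D.N C := wl_N hD hC
  obtain ⟨R, hR, h2⟩ := Dc.base (C := fun _ => True) hL hD (TN.cst nC) (w2_dfb hL)
  have h3 : DN D.N (fun u => R (cons (snd (u 1)) fun i => u (match i with
      | 0 => 0
      | i + 1 => 2))) := DN.push kz hR (TN.snd kz (TN.var kz 1)) _
  have h4 := DN.push kz h3 (TN.fst kz (TN.var kz 0)) (fun i => i)
  have nP : D.N (D.P C) := TN.mem kz (tnP hL hD (TN.cst nC)) (u := fun _ => h) (fun _ => nh)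
  have nTP : D.N (ZFSet.prod Ts (D.P C)) :=
    TN.mem kz (TN.prod kz (TN.cst nT) (TN.cst nP)) (u := fun _ => h) (fun _ => nh)
  have eR : ∀ z, (R (cons (snd z) (cons (fst z) fun _ => h)) ↔
      R (cons (snd ((cons (fst (cons z (fun _ => h) 0)) fun i => cons z (fun _ => h) i) 1))
        fun i => (cons (fst (cons z (fun _ => h) 0)) fun i => cons z (fun _ => h) i) (match i with
      | 0 => 0
      | i + 1 => 2))) := by
    intro z
    have e : (fun i => (cons (fst (cons z (fun _ => h) 0)) fun i => cons z (fun _ => h) i)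
        (match i with
      | 0 => 0
      | i + 1 => 2)) = cons (fst z) fun _ => h := by
      funext i
      match i with
      | 0 => rfl
      | i + 1 => rfl
    rw [e]
    rfl
  refine ⟨(ZFSet.prod Ts (D.P C)).sep fun z => R (cons (snd z) (cons (fst z) fun _ => h)), ?_,
    ?_, ?_⟩
  · have h5 := DN.sepN kz h4 nTP (u := fun _ => h) (fun _ => nh)
    have e : ((ZFSet.prod Ts (D.P C)).sep fun z => R (cons (snd z) (cons (fst z) fun _ => h))) =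
        (ZFSet.prod Ts (D.P C)).sep fun z => R (cons (snd ((cons (fst (cons z (fun _ => h) 0))
          fun i => cons z (fun _ => h) i) 1))
        fun i => (cons (fst (cons z (fun _ => h) 0)) fun i => cons z (fun _ => h) i) (match i with
      | 0 => 0
      | i + 1 => 2)) := by
      ext z
      rw [ZFSet.mem_sep, ZFSet.mem_sep, eR]
    rw [e]
    exact h5
  · intro z hz
    obtain ⟨t, ht1, q, hq, rfl⟩ := ZFSet.mem_prod.1 (ZFSet.mem_sep.1 hz).1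
    exact ⟨t, ht1, q, hq, rfl⟩
  · intro X Y e ht1 G hG
    have nt : D.N (ZFSet.pair X (ZFSet.pair Y e.toZFSet)) := hD.zfm.trans _ nT _ ht1
    have h5 := h2 (cons (ZFSet.pair X (ZFSet.pair Y e.toZFSet)) fun _ => h)
      (In.cons (fun _ => nh) nt) ⟨hC, cC⟩ trivial G hG
    refine (w2_ent (M := D.W G)).symm.trans (Iff.trans h5 ?_)
    refine exists_congr fun q => and_congr_right fun hq => ?_
    rw [ZFSet.mem_sep, fst_pair, snd_pair, ZFSet.pair_mem_prod]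
    exact ⟨fun h => ⟨⟨ht1, hG.1.sub hq⟩, h⟩, fun h => h.2⟩

/-- the history which is given by a set of pairs -/
noncomputable def w2H (D : Cx) (O Ts ρ : V) : V := imS (O ∩ ZFSet.prod Ts (D.P ρ)) fun z =>
  ht (snd z) (fst (fst z)) (fst (snd (fst z))) (snd (snd (fst z)))

theorem w2_hE {O Ts ρ q X Y e : V} (hT : ∀ t ∈ Ts,
    t = ZFSet.pair (fst t) (ZFSet.pair (fst (snd t)) (snd (snd t)))) :
    ht q X Y e ∈ w2H D O Ts ρ ↔
    ZFSet.pair (ZFSet.pair X (ZFSet.pair Y e)) q ∈ O ∧ ZFSet.pair X (ZFSet.pair Y e) ∈ Ts ∧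
      q ∈ D.P ρ := by
  unfold w2H
  rw [mem_imS]
  constructor
  · rintro ⟨z, hz, h1⟩
    obtain ⟨h2, h3⟩ := ZFSet.mem_inter.1 hz
    obtain ⟨t, ht1, q1, hq1, rfl⟩ := ZFSet.mem_prod.1 h3
    unfold ht at h1
    rw [fst_pair, snd_pair] at h1
    obtain ⟨h4, h5⟩ := ZFSet.pair_injective h1
    have h6 : ZFSet.pair X (ZFSet.pair Y e) = t := h5.symm.trans (hT t ht1).symm
    rw [h6, ← h4]
    exact ⟨h2, ht1, hq1⟩
  · rintro ⟨h1, h2, h3⟩
    refine ⟨_, ZFSet.mem_inter.2 ⟨h1, ZFSet.pair_mem_prod.2 ⟨h2, h3⟩⟩, ?_⟩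
    simp only [fst_pair, snd_pair]

theorem w2_e0 (hBD : T_BD) {ρ G : V} (hG : D.Gn ρ G) : (∅ : V) ∈ G := by
  obtain ⟨p, hp⟩ := hG.1.ne
  exact hG.1.up p hp ∅ ((hBD.2.2.2.2.2.2.1 _ _ _ _).2
    ⟨hG.1.sub hp, hBD.1 _ _, (hBD.2.2.2.1 _ _ _ (hG.1.sub hp)).2⟩)

theorem pf_W2a (hL : Lb) (hPWE : T_PWE) (hPOA : T_POA) (hPHA : T_PHA) (hQF4 : T_QF4)
    (hQRM : T_QRM) (hQRN : T_QRN) (hLL : T_LL) : T_W2a := by
  intro D κ b hA hb σ nσ C hC C' hC' B h wC wC' wB l1 l2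
  have hD := hA.ok
  have kz := hD.zfm
  have iC := (hPWE b D σ C hC).1 wC
  have iC' := (hPWE b D σ C' hC').1 wC'
  have iB := (hPWE b D σ B h).1 wB
  obtain ⟨E, eB, eU⟩ := hb.meet C C' B l1.le l2.le
  obtain ⟨oE, eC, eC'⟩ := (hPOA D κ hA b hb B iB.wo.o).2.1 C C' E l1.le l2.le iC.wo.o iC'.wo.o
    eB eU
  obtain ⟨nE, cE, tE⟩ := wl_o hb hD oE.o
  obtain ⟨nC, cC, tC⟩ := wl_o hb hD iC.wo.o.o
  obtain ⟨nC', cC', tC'⟩ := wl_o hb hD iC'.wo.o.o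
  obtain ⟨nB, cB, tB⟩ := wl_o hb hD iB.wo.o.o
  have sCB := (hb.leO _ _ l1.le).2.2
  have sC'B := (hb.leO _ _ l2.le).2.2
  have sEB := (hb.leO _ _ eB).2.2
  have sEC := (hb.leO _ _ eC).2.2
  have sEC' := (hb.leO _ _ eC').2.2
  obtain ⟨S, hS, hS'⟩ := hA.nam (b.u E) (hb.cs E oE.o).h cE
  have nS : D.N S := wl_N hD hS
  obtain ⟨Ts, hTs0⟩ : ∃ Ts, Ts = ZFSet.prod S (ZFSet.prod S σ.toZFSet) := ⟨_, rfl⟩
  have nTs : D.N Ts := by
    rw [hTs0]
    exact TN.mem kz (TN.prod kz (TN.cst nS) (TN.prod kz (TN.cst nS) (TN.cst nσ)))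
      (u := fun _ => S) (fun _ => nS)
  have hTs : ∀ t, t ∈ Ts ↔ ∃ X Y, ∃ e < σ, (D.N X ∧ Nam D.L (b.u E) X) ∧
      (D.N Y ∧ Nam D.L (b.u E) Y) ∧ t = ZFSet.pair X (ZFSet.pair Y e.toZFSet) := by
    intro t
    rw [hTs0, ZFSet.mem_prod]
    constructor
    · rintro ⟨X, hX, w, hw, rfl⟩
      obtain ⟨Y, hY, e, he, rfl⟩ := ZFSet.mem_prod.1 hw
      obtain ⟨e', rfl⟩ := IsOrd.of_mem (isOrd_toZFSet σ) he
      exact ⟨X, Y, e', toZFSet_mem.1 he, (hS' X).1 hX, (hS' Y).1 hY, rfl⟩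
    · rintro ⟨X, Y, e, he, hX, hY, rfl⟩
      exact ⟨X, (hS' X).2 hX, _, ZFSet.pair_mem_prod.2 ⟨(hS' Y).2 hY, toZFSet_mem.2 he⟩, rfl⟩
  have hT3 : ∀ t ∈ Ts, t = ZFSet.pair (fst t) (ZFSet.pair (fst (snd t)) (snd (snd t))) := by
    intro t ht1
    obtain ⟨X, Y, e, -, -, -, rfl⟩ := (hTs t).1 ht1
    simp only [fst_pair, snd_pair]
  obtain ⟨O1, nO1, hO1, dO1⟩ := w2_dec hL hD (hb.cs C iC.wo.o.o).h cC iC.wo.hs.n nTs
  obtain ⟨O2, nO2, hO2, dO2⟩ := w2_dec hL hD (hb.cs C' iC'.wo.o.o).h cC' iC'.wo.hs.n nTs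
  -- the values
  have key : ∀ {C hC : V} (iC : b.Iw D (b.Wd D) σ C hC) (eC : b.u E ⊆ b.u C)
      (l : b.LW D σ C hC B h) (O1 : V) (dO1 : ∀ X Y (e : Ordinal.{0}),
        ZFSet.pair X (ZFSet.pair Y e.toZFSet) ∈ Ts → ∀ G, D.Gn (b.u C) G →
        (Ent hC G (ev G X) (ev G Y) e ↔
          ∃ q ∈ G, ZFSet.pair (ZFSet.pair X (ZFSet.pair Y e.toZFSet)) q ∈ O1)) X Y e, e < σ →
      (D.N X ∧ Nam D.L (b.u E) X) → (D.N Y ∧ Nam D.L (b.u E) Y) → ∀ G, D.Gn (b.u B) G →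
      ((∃ q ∈ gs G (b.u C), ZFSet.pair (ZFSet.pair X (ZFSet.pair Y e.toZFSet)) q ∈ O1) ↔
        Ent h G (ev G X) (ev G Y) e) := by
    intro C hC iC eC l O1 dO1 X Y e he hX hY G hG
    obtain ⟨nC, cC, tC⟩ := wl_o hb hD iC.wo.o.o
    have sCB := (hb.leO _ _ l.le).2.2
    have gC := ((hL.BL D hD _ G nB cB hG).2 _ nC sCB tC).1
    rw [← dO1 X Y e ((hTs _).2 ⟨X, Y, e, he, hX, hY, rfl⟩) _ gC, wl_ev hX.2 eC, wl_ev hY.2 eC,
      ← (((hPHA D hD _ _ _ _ nC cC nB cB sCB iC.wo.hs).1 G hG).1 _ _ _).1]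
    refine wl_lw hPHA hL.BL hA hb l iC.wo.hs iB.wo.hs nB cB (fun _ h => h) hG ?_ _ he
    have h1 := (hQRN D hD _ G _ nB cB hG nE sEB tE).1 (ev G X)
    exact (hQRN D hD _ G _ nB cB hG nE sEB tE).2.2.2.2.2.2.2.1 _ nC eC sCB tC _
      (h1.2 ⟨X, hX.1, hX.2, rfl⟩)
  obtain ⟨O, nO, hO, dO⟩ := hQF4 D hD (b.u B) (b.u C) (b.u C') nB cB nC nC' sCB sC'B tC tC' ∅
    (hL.BD.1 _ _) O1 O2 nO1 nO2 (by
      intro u G hG h0
      by_cases hu : u ∈ Ts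
      · obtain ⟨X, Y, e, he, hX, hY, rfl⟩ := (hTs u).1 hu
        rw [key iC sEC l1 O1 dO1 X Y e he hX hY G hG, key iC' sEC' l2 O2 dO2 X Y e he hX hY G hG]
      · constructor
        · rintro ⟨q, hq, h1⟩
          obtain ⟨t, ht1, q', hq', h2⟩ := hO1 _ h1
          rw [(ZFSet.pair_injective h2).1] at hu
          exact absurd ht1 hu
        · rintro ⟨q, hq, h1⟩
          obtain ⟨t, ht1, q', hq', h2⟩ := hO2 _ h1
          rw [(ZFSet.pair_injective h2).1] at hu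
          exact absurd ht1 hu)
  have nh : D.N (w2H D O Ts (b.u E)) := by
    unfold w2H ht
    exact TN.mem kz (TN.image kz (TN.inter kz (TN.cst nO) (TN.prod kz (TN.cst nTs)
      (tnP hL hD (TN.cst nE)))) (TN.pair kz (TN.snd kz (TN.var kz 0)) (TN.pair kz
        (TN.fst kz (TN.fst kz (TN.var kz 0))) (TN.pair kz
          (TN.fst kz (TN.snd kz (TN.fst kz (TN.var kz 0))))
          (TN.snd kz (TN.snd kz (TN.fst kz (TN.var kz 0)))))))) (u := fun _ => S) (fun _ => nS)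
  have hs : His D (b.u E) (w2H D O Ts (b.u E)) σ := by
    refine ⟨nh, ?_⟩
    intro z hz
    unfold w2H at hz
    obtain ⟨w, hw, rfl⟩ := mem_imS.1 hz
    obtain ⟨h2, h3⟩ := ZFSet.mem_inter.1 hw
    obtain ⟨t, ht1, q, hq, rfl⟩ := ZFSet.mem_prod.1 h3
    obtain ⟨X, Y, e, he, hX, hY, rfl⟩ := (hTs t).1 ht1
    refine ⟨q, hq, X, Y, e, he, hX, hY, ?_⟩
    simp only [fst_pair, snd_pair]
  -- entries
  have ent : ∀ G, D.Gn (b.u B) G → ∀ X y e, Ent (w2H D O Ts (b.u E)) G X y e ↔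
      ∃ X' Y', e < σ ∧ (D.N X' ∧ Nam D.L (b.u E) X') ∧ (D.N Y' ∧ Nam D.L (b.u E) Y') ∧
        ev G X' = X ∧ ev G Y' = y ∧ Ent h G X y e := by
    intro G hG X y e
    constructor
    · rintro ⟨q, hq, X', Y', h1, h2, h3⟩
      obtain ⟨h4, h5, h6⟩ := (w2_hE hT3).1 h1
      obtain ⟨X1, Y1, e1, he1, hX1, hY1, h7⟩ := (hTs _).1 h5
      obtain ⟨h8, h9⟩ := ZFSet.pair_injective h7
      obtain ⟨h10, h11⟩ := ZFSet.pair_injective h9
      subst h8 h10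
      have h12 : e = e1 := Ordinal.toZFSet_injective h11
      subst h12
      refine ⟨X', Y', he1, hX1, hY1, h2, h3, ?_⟩
      have h13 : ∃ q ∈ gs G (b.u C ∩ b.u C'),
          ZFSet.pair (ZFSet.pair X' (ZFSet.pair Y' e.toZFSet)) q ∈ O :=
        ⟨q, wl_gs.2 ⟨hq, by rw [← eU]; exact wl_dm h6⟩, h4⟩
      rw [dO _ G hG (w2_e0 hL.BD hG), key iC sEC l1 O1 dO1 X' Y' e he1 hX1 hY1 G hG] at h13
      rw [← h2, ← h3]
      exact h13
    · rintro ⟨X', Y', he, hX, hY, h2, h3, h4⟩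
      rw [← h2, ← h3, ← key iC sEC l1 O1 dO1 X' Y' e he hX hY G hG,
        ← dO _ G hG (w2_e0 hL.BD hG)] at h4
      obtain ⟨q, hq, h5⟩ := h4
      refine ⟨q, (wl_gs.1 hq).1, X', Y', (w2_hE hT3).2 ⟨h5, (hTs _).2 ⟨X', Y', e, he, hX, hY, rfl⟩, ?_⟩,
        h2, h3⟩
      rw [eU]
      exact hO _ _ h5
  have lE : b.LW D σ E (w2H D O Ts (b.u E)) B h := by
    refine ⟨eB, ?_⟩
    intro G hG X hX y e
    refine and_congr_left fun he => ?_
    rw [ent G hG]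
    constructor
    · rintro ⟨X', Y', -, -, -, -, -, h1⟩
      exact h1
    · intro h1
      have q := hQRN D hD _ G _ nB cB hG nE sEB tE
      have mon : ∀ {C}, b.u E ⊆ b.u C → D.N (b.u C) → b.u C ⊆ b.u B → Tr (b.u C) →
          RR D (b.u C) G X := fun h1 h2 h3 h4 => q.2.2.2.2.2.2.2.1 _ h2 h1 h3 h4 X hX
      have y1 : RR D (b.u C) G y := by
        have h2 := (wl_lw hPHA hL.BL hA hb l1 iC.wo.hs iB.wo.hs nB cB (fun _ h => h) hG
          (mon sEC nC sCB tC) y he).2 h1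
        exact ((((hPHA D hD _ _ _ _ nC cC nB cB sCB iC.wo.hs).1 G hG).1 _ _ _).2 h2).2.1
      have y2 : RR D (b.u C') G y := by
        have h2 := (wl_lw hPHA hL.BL hA hb l2 iC'.wo.hs iB.wo.hs nB cB (fun _ h => h) hG
          (mon sEC' nC' sC'B tC') y he).2 h1
        exact ((((hPHA D hD _ _ _ _ nC' cC' nB cB sC'B iC'.wo.hs).1 G hG).1 _ _ _).2 h2).2.1
      have y3 : RR D (b.u E) G y := by
        rw [eU]
        exact hQRM D hD _ G _ _ nB cB hG nC nC' sCB sC'B tC tC' y y1 y2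
      obtain ⟨X', nX', sX', eX'⟩ := (q.1 X).1 hX
      obtain ⟨Y', nY', sY', eY'⟩ := (q.1 y).1 y3
      exact ⟨X', Y', he, ⟨nX', sX'⟩, ⟨nY', sY'⟩, eX', eY', h1⟩
  exact ⟨E, _, (hLL D κ b σ ⟨hA, hb, nσ⟩).2.2.2.2.1 _ _ _ _ oE hs wB lE, eU, lE,
    wl_mid hPHA hQRN hL.BL hL.BM hL.BD hA hb lE l1 eC hs iC.wo.hs iB.wo.hs,
    wl_mid hPHA hQRN hL.BL hL.BM hL.BD hA hb lE l2 eC' hs iC'.wo.hs iB.wo.hs⟩

end SE.UZ
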