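import Pool.Agent.H72.UZ.Defs
import Pool.Agent.H9.SE.TarK

/-!
# MP_f6fd33_lc, part KO: `Π¹₁` uniformization in models of `ZFC` (Kondo). Definitions and targets

The reals have values in `hf`. The set with the code `a` is `{(x, y) : Cps (TO a (prl x y)) EO c for
some c}`; the norms are the values of the collapse `c`.
-/

set_option linter.unusedVariables false

open Ordinal Order Set
open scoped ZFSet

namespace SE.UZ

open SF CAA

/-! ## General lemmas -/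

/-- KO1: definable open sets of reals have codes -/
def T_KO1 : Prop := ∀ R : (V → Prop) → (ℕ → V) → Prop, Dfb ZFm R → ∀ W, ZFm W →
  ∀ v : ℕ → V, In W v →
  (∀ z, W z → Rl z → R W (cons z v) →
    ∃ n : ℕ, ∀ z', W z' → Rl z' → rs z' (nS n) = rs z (nS n) → R W (cons z' v)) →
  ∃ c, W c ∧ Rl c ∧ ∀ z, W z → Rl z → (Opn c z ↔ R W (cons z v))

/-- KO2: the leftmost branch; `k` is a function, `app k (p, n)` the value of `p` at `n` -/
def T_KO2 : Prop := ∀ W, ZFm W → ∀ P k, W P → W k → P.Nonempty →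
  (∀ p ∈ P, ∀ n : ℕ, IsOrd (app k (ZFSet.pair p (nS n)))) →
  ∃ q, W q ∧
    (∀ n : ℕ, ∃ p ∈ P, ∀ i ≤ n, app q (nS i) = app k (ZFSet.pair p (nS i))) ∧
    ∀ p ∈ P, (∀ i : ℕ, app q (nS i) = app k (ZFSet.pair p (nS i))) ∨
      ∃ n : ℕ, (∀ i < n, app q (nS i) = app k (ZFSet.pair p (nS i))) ∧
        app q (nS n) ∈ app k (ZFSet.pair p (nS n))

/-- KO3: the collapse of a tree (proper extension is a transitive relation); outside of its domain
the value of a function is `∅` -/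
def T_KO3 : Prop :=
  (∀ T c, Cps T EO c → ∀ s, IsOrd (app c s)) ∧
  (∀ T c, Cps T EO c → ∀ s, s ∉ T → app c s = ∅) ∧
  (∀ T c, Cps T EO c → Rkf T EO c) ∧
  (∀ T c c', Cps T EO c → Cps T EO c' → ∀ s, app c s = app c' s) ∧
  (∀ T c f, Cps T EO c → Rkf T EO f → ∀ s, app c s ⊆ app f s) ∧
  ∀ W, ZFCm W → ∀ a z, W a → Rl a → W z → Rl z →
    ((∀ v, W v → Rl v → Opn a (prl z v)) ↔ ∃ c, W c ∧ Cps (TO a z) EO c)

/-- KO4: trees are decided by finite parts -/
def T_KO4 : Prop :=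
  (∀ a z, Rl a → Rl z → ∀ b c, ZFSet.pair b c ∈ EO → b ∈ TO a z → c ∈ TO a z) ∧
  (∀ a x y x' y' (k : ℕ) b, Rl a → Rl x → Rl y → Rl x' → Rl y' → Sq k b →
    rs x' (nS k) = rs x (nS k) → rs y' (nS k) = rs y (nS k) →
    (b ∈ TO a (prl x' y') ↔ b ∈ TO a (prl x y))) ∧
  ∀ b : V, b ∈ sq → b ≠ ∅ → ZFSet.pair b ∅ ∈ EO

/-! ## The scale -/

/-- `e` enumerates `hf`, `j` is an injection of `hf` into `ω` -/
structure KE (e j : V) : Prop where
  fn : ZFSet.IsFunc om hf e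
  onto : ∀ h ∈ hf, ∃ n : ℕ, app e (nS n) = h
  z : app e ∅ = ZFSet.pair ∅ ∅
  j : Inj j

/-- KO5: enumerations exist -/
def T_KO5 : Prop := ∀ W, ZFm W → ∃ e j, W e ∧ W j ∧ KE e j

/-- the value at `n` of the real `y` with the norms `c` -/
noncomputable def Kv (e j y c n : V) : V :=
  sel (fst (app e n) = ∅) (app c (snd (app e n))) (app j (app y (snd (app e n))))

/-- `(x, y)` is in the `Π¹₁` set with the code `a`, with the norms `c` -/
structure Mm (W : V → Prop) (a x y c : V) : Prop where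
  wy : W y
  ry : Rl y
  wc : W c
  cp : Cps (TO a (prl x y)) EO c

/-- `y` (with the norms `c`) is the least element of the section at `x` -/
structure Lst (W : V → Prop) (e j a x y c : V) : Prop where
  m : Mm W a x y c
  l : ∀ y' c', Mm W a x y' c' → y = y' ∨ ∃ n : ℕ,
    (∀ i < n, Kv e j y c (nS i) = Kv e j y' c' (nS i)) ∧
      Kv e j y c (nS n) ∈ Kv e j y' c' (nS n)

/-- KO6: there is a least element -/
def T_KO6 : Prop := ∀ W, ZFC W → ∀ e j, W e → W j → KE e j → ∀ a x, W a → Rl a → W x → Rl x →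
  (∃ y c, Mm W a x y c) → ∃ y c, Lst W e j a x y c

/-! ## Improvements -/

/-- the value at `h` of the function coded by `w` -/
noncomputable def Gw (j w h : V) : V := app w (app j h)

/-- `t` simulates `u` -/
def Rw (j w u t : V) : Prop := Gw j w (ZFSet.pair ∅ (ZFSet.pair u t)) = nS 1

/-- the choice of a simulation of `u'` -/
noncomputable def CwK (j w u t u' : V) : V :=
  Gw j w (ZFSet.pair (nS 1) (ZFSet.pair u (ZFSet.pair t u')))

/-- `b` is a proper extension of `c` in the tree of `(x, y)` -/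
def Er (a x y b c : V) : Prop :=
  b ∈ TO a (prl x y) ∧ c ∈ TO a (prl x y) ∧ ZFSet.pair b c ∈ EO

/-- `w` codes a proof that `y'` is better than `y` (in the section at `x`) -/
structure Imp (e j a x y y' w : V) : Prop where
  n : Gw j w ∅ ∈ om
  s : ∀ u ∈ hf, ∀ t ∈ hf, ∀ u' ∈ hf, Rw j w u t → Er a x y' u' u →
    Er a x y (CwK j w u t u') t ∧ Rw j w u' (CwK j w u t u')
  e1 : ∀ i ∈ Gw j w ∅, fst (app e i) = ∅ → Rw j w (snd (app e i)) (snd (app e i))
  e2 : ∀ i ∈ Gw j w ∅, fst (app e i) ≠ ∅ → app y' (snd (app e i)) = app y (snd (app e i))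
  l1 : fst (app e (Gw j w ∅)) = ∅ →
    Er a x y (Gw j w (ZFSet.pair (nS 2) ∅)) (snd (app e (Gw j w ∅))) ∧
      Rw j w (snd (app e (Gw j w ∅))) (Gw j w (ZFSet.pair (nS 2) ∅))
  l2 : fst (app e (Gw j w ∅)) ≠ ∅ →
    app j (app y' (snd (app e (Gw j w ∅)))) ∈ app j (app y (snd (app e (Gw j w ∅))))

/-- KO7: soundness -/
def T_KO7 : Prop := ∀ W, ZFCm W → ∀ e j, W e → W j → KE e j → ∀ a x, W a → Rl a → W x → Rl x →
  ∀ y c y' w, Mm W a x y c → W y' → Rl y' → W w → Rl w → Imp e j a x y y' w →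
    ∃ c', Mm W a x y' c' ∧ ∃ n : ℕ, (∀ i < n, Kv e j y' c' (nS i) ⊆ Kv e j y c (nS i)) ∧
      Kv e j y' c' (nS n) ∈ Kv e j y c (nS n)

/-- KO8: completeness -/
def T_KO8 : Prop := ∀ W, ZFm W → ∀ e j, W e → W j → KE e j → ∀ a x, W a → Rl a → W x → Rl x →
  ∀ y c y' c', Mm W a x y c → Mm W a x y' c' → ∀ n : ℕ,
    (∀ i < n, Kv e j y' c' (nS i) = Kv e j y c (nS i)) →
    Kv e j y' c' (nS n) ∈ Kv e j y c (nS n) → ∃ w, W w ∧ Rl w ∧ Imp e j a x y y' w

/-- KO9: definability -/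
def T_KO9 : Prop := Tm ZFm (fun _ v => Kv (v 0) (v 1) (v 2) (v 3) (v 4)) ∧
  Dfb ZFm (fun _ v => Imp (v 0) (v 1) (v 2) (v 3) (v 4) (v 5) (v 6))

/-- KO10: the improvements form a closed set -/
def T_KO10 : Prop := ∀ e j a x y y' w, KE e j → Rl a → Rl x → Rl y → Rl y' → Rl w →
  ¬ Imp e j a x y y' w → ∃ n : ℕ, ∀ x1 y1 y1' w1, Rl x1 → Rl y1 → Rl y1' → Rl w1 →
    rs x1 (nS n) = rs x (nS n) → rs y1 (nS n) = rs y (nS n) → rs y1' (nS n) = rs y' (nS n) →
    rs w1 (nS n) = rs w (nS n) → ¬ Imp e j a x1 y1 y1' w1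

/-- KO11: the set which has no improvement is `Π¹₁` -/
def T_KO11 : Prop := ∀ W, ZFm W → ∀ e j, W e → W j → KE e j → ∀ a, W a → Rl a →
  ∃ b, W b ∧ Rl b ∧ ∀ x y, W x → Rl x → W y → Rl y → (¬ SgH W 1 b (prl x y) ↔
    (∀ v, W v → Rl v → Opn a (prl (prl x y) v)) ∧
      ∀ y' w, W y' → Rl y' → W w → Rl w → ¬ Imp e j a x y y' w)

/-- KO: Kondo's theorem -/
def T_KO : Prop := ∀ W, ZFC W → UniH W 1

end SE.UZ
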