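import Pool.Agent.H72.UZ.TarY
import Pool.Agent.H45.UZ.TarP
import Pool.Agent.H41.UZ.TR

/-! General lemmas for the modules W1, W2, W2a. -/

set_option linter.unusedVariables false

open Ordinal Order Set
open scoped ZFSet

namespace SE.UZ

open SF

variable {D : Cx} {κ : V} {b : BS}

theorem wl_cmp (h : IsOrd κ) {ξ η : V} (hξ : ξ ∈ κ) (hη : η ∈ κ) :
    ξ = η ∨ (ξ ∈ η ∧ ξ ⊆ η) ∨ (η ∈ ξ ∧ η ⊆ ξ) := by
  obtain ⟨α, rfl⟩ := _root_.UZ.IsOrd.of_mem h hξ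
  obtain ⟨β, rfl⟩ := _root_.UZ.IsOrd.of_mem h hη
  rcases lt_trichotomy α β with h1 | h1 | h1
  · exact Or.inr (Or.inl ⟨_root_.UZ.toZFSet_mem.2 h1,
      (ZFSet.isOrdinal_toZFSet β).isTransitive _ (_root_.UZ.toZFSet_mem.2 h1)⟩)
  · exact Or.inl (by rw [h1])
  · exact Or.inr (Or.inr ⟨_root_.UZ.toZFSet_mem.2 h1,
      (ZFSet.isOrdinal_toZFSet α).isTransitive _ (_root_.UZ.toZFSet_mem.2 h1)⟩)

/-- two indices have a common upper bound -/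
theorem wl_max (h : IsOrd κ) {ξ η : V} (hξ : ξ ∈ κ) (hη : η ∈ κ) :
    ∃ ζ ∈ κ, ξ ⊆ ζ ∧ η ⊆ ζ ∧ (ζ = ξ ∨ ζ = η) := by
  rcases wl_cmp h hξ hη with h1 | h1 | h1
  · exact ⟨ξ, hξ, fun _ h => h, by rw [h1], Or.inl rfl⟩
  · exact ⟨η, hη, h1.2, fun _ h => h, Or.inr rfl⟩
  · exact ⟨ξ, hξ, fun _ h => h, h1.2, Or.inl rfl⟩

theorem wl_N (hD : D.Ok) {x : V} (h : x ∈ D.H) : D.N x := hD.zfc.trans _ hD.hN _ h

theorem wl_tr {L ρ : V} (h : Cld L ρ) : Tr ρ := fun i hi => (h i hi).2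

theorem wl_o (hb : b.Ok D κ) {B : V} (hD : D.Ok) (hB : B ∈ b.Ob) :
    D.N (b.u B) ∧ Cld D.L (b.u B) ∧ Tr (b.u B) :=
  ⟨wl_N hD (hb.cs B hB).h, (hb.cs B hB).c, wl_tr (hb.cs B hB).c⟩

/-- extension of a generic filter to a larger set of labels -/
theorem wl_ext (hBD : T_BD) (hBM : T_BM) (hD : D.Ok) {s ρ G0 : V} (ns : D.N s) (nρ : D.N ρ)
    (hc : Cld D.L ρ) (hs : s ⊆ ρ) (ht : Tr s) (hG : D.Gn s G0) :
    ∃ G, D.Gn ρ G ∧ gs G s = G0 := by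
  obtain ⟨p, hp⟩ := hG.1.ne
  have h1 : (∅ : V) ∈ G0 := hG.1.up p hp ∅ ((hBD.2.2.2.2.2.2.1 _ _ _ _).2
    ⟨hG.1.sub hp, hBD.1 _ _, (hBD.2.2.2.1 _ _ _ (hG.1.sub hp)).2⟩)
  have h2 : rst s (∅ : V) = ∅ := by
    ext z
    unfold rst
    rw [ZFSet.mem_sep]
    exact ⟨fun h => h.1, fun h => absurd h (ZFSet.notMem_empty _)⟩
  obtain ⟨G, h3, -, h4⟩ := hBM D hD s ρ G0 ∅ ns nρ hc hs ht hG (hBD.1 _ _) (by rwa [h2])
  exact ⟨G, h3, h4⟩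

/-- entries of a face, with respect to a filter on a larger set -/
theorem wl_lw (hPHA : T_PHA) (hBL : T_BL) (hA : Amb D κ) (hb : b.Ok D κ)
    {σ σ0 σ1 : Ordinal.{0}} {C h0 B h : V} (hl : b.LW D σ C h0 B h) (h0s : His D (b.u C) h0 σ0)
    (hs : His D (b.u B) h σ1) {ρ G : V} (hρ : D.N ρ) (hc : Cld D.L ρ) (hsub : b.u B ⊆ ρ)
    (hG : D.Gn ρ G) {X : V} (hX : RR D (b.u C) G X) (y : V) {e : Ordinal.{0}} (he : e < σ) :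
    Ent h0 G X y e ↔ Ent h G X y e := by
  obtain ⟨oC, oB, sCB⟩ := hb.leO _ _ hl.le
  obtain ⟨nC, cC, tC⟩ := wl_o hb hA.ok oC
  obtain ⟨nB, cB, tB⟩ := wl_o hb hA.ok oB
  have hBL' := (hBL D hA.ok ρ G hρ hc hG).2
  obtain ⟨gB, -, -, -, -, -, sB⟩ := hBL' (b.u B) nB hsub tB
  have e1 := ((hPHA D hA.ok (b.u C) ρ h0 σ0 nC cC hρ hc (fun i hi => hsub (sCB hi)) h0s).1 G
    hG).1 X y e
  have e2 := ((hPHA D hA.ok (b.u B) ρ h σ1 nB cB hρ hc hsub hs).1 G hG).1 X y e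
  have e3 := ((hPHA D hA.ok (b.u C) (b.u B) h0 σ0 nC cC nB cB sCB h0s).1 _ gB).1 X y e
  rw [sB (b.u C) sCB] at e3
  have hX' : RR D (b.u C) (gs G (b.u B)) X := by
    unfold RR
    rw [sB (b.u C) sCB]
    exact hX
  have e4 := hl.e _ gB X hX' y e
  rw [e1.1, e2.1, ← e3.1]
  constructor
  · intro h5
    exact (e4.1 ⟨h5, he⟩).1
  · intro h5
    exact (e4.2 ⟨h5, he⟩).1

end SE.UZ
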