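import Pool.Agent.H75.UZ.Wl

/-! General lemmas for the modules W2, W2a. -/

set_option linter.unusedVariables false

open Ordinal Order Set
open scoped ZFSet

namespace SE.UZ

open SF

variable {D : Cx} {κ : V} {b : BS}

/-- two faces, one of which is a face of the other as an object -/
theorem wl_mid (hPHA : T_PHA) (hQRN : T_QRN) (hBL : T_BL) (hBM : T_BM) (hBD : T_BD)
    (hA : Amb D κ) (hb : b.Ok D κ) {σ σ0 σ1 σ2 : Ordinal.{0}} {E hE C hC B h : V}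
    (l1 : b.LW D σ E hE B h) (l2 : b.LW D σ C hC B h) (le : b.Le E C)
    (sE : His D (b.u E) hE σ0) (sC : His D (b.u C) hC σ1) (sB : His D (b.u B) h σ2) :
    b.LW D σ E hE C hC := by
  have hD := hA.ok
  obtain ⟨oE, oC, sub⟩ := hb.leO _ _ le
  obtain ⟨-, oB, sub2⟩ := hb.leO _ _ l2.le
  obtain ⟨nE, cE, tE⟩ := wl_o hb hD oE
  obtain ⟨nC, cC, tC⟩ := wl_o hb hD oC
  obtain ⟨nB, cB, tB⟩ := wl_o hb hD oB
  refine ⟨le, ?_⟩
  intro G' hG' X hX y e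
  obtain ⟨G, hG, hr⟩ := wl_ext hBD hBM hD nC nB cB sub2 tC hG'
  have hBL' := (hBL D hD _ G nB cB hG).2 _ nC sub2 tC
  have hX' : RR D (b.u E) G X := by
    unfold RR at hX ⊢
    rwa [← hr, hBL'.2.2.2.2.2.2 _ sub] at hX
  have hX2 : RR D (b.u C) G X := by
    have h9 := (hQRN D hD _ G _ nB cB hG nE (fun i hi => sub2 (sub hi)) tE).2.2.2.2.2.2.2.1
    exact h9 _ nC sub sub2 tC X hX'
  have e1 := ((hPHA D hD _ _ _ _ nE cE nB cB (fun i hi => sub2 (sub hi)) sE).1 G hG).1 X y e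
  have e2 := ((hPHA D hD _ _ _ _ nE cE nC cC sub sE).1 G' hG').1 X y e
  have e3 := ((hPHA D hD _ _ _ _ nC cC nB cB sub2 sC).1 G hG).1 X y e
  rw [← hr, hBL'.2.2.2.2.2.2 _ sub] at e2
  rw [← hr]
  constructor
  · rintro ⟨h5, h6⟩
    refine ⟨?_, h6⟩
    have h7 : Ent hE G X y e := e1.1.2 (e2.1.1 h5)
    have h8 := (wl_lw hPHA hBL hA hb l1 sE sB nB cB (fun _ h => h) hG hX' y h6).1 h7
    exact e3.1.1 ((wl_lw hPHA hBL hA hb l2 sC sB nB cB (fun _ h => h) hG hX2 y h6).2 h8)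
  · rintro ⟨h5, h6⟩
    refine ⟨?_, h6⟩
    have h7 : Ent hC G X y e := e3.1.2 h5
    have h8 := (wl_lw hPHA hBL hA hb l2 sC sB nB cB (fun _ h => h) hG hX2 y h6).1 h7
    exact e2.1.2 (e1.1.1
      ((wl_lw hPHA hBL hA hb l1 sE sB nB cB (fun _ h => h) hG hX' y h6).2 h8))

theorem wl_dm {L ρ p : V} (h : p ∈ Pos L ρ) : dm p ⊆ ρ := by
  intro i hi
  unfold Pos at h
  obtain ⟨y, hy⟩ := mem_dm.1 hi
  have h1 : p ⊆ ZFSet.prod ρ (Qs L) := by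
    have h2 := (ZFSet.mem_sep.1 h).1
    unfold Fs at h2
    exact ZFSet.mem_powerset.1 (ZFSet.mem_sep.1 h2).1
  exact (ZFSet.pair_mem_prod.1 (h1 hy)).1

theorem wl_gs {G s p : V} : p ∈ gs G s ↔ p ∈ G ∧ dm p ⊆ s := by
  unfold gs
  rw [ZFSet.mem_sep]

/-- values of names over `s` -/
theorem wl_ev {L s s' Y G : V} (h : Nam L s Y) (hs : s ⊆ s') : ev (gs G s') Y = ev G Y := by
  unfold ev
  congr 1
  ext z
  simp only [ZFSet.mem_sep]
  refine and_congr_right fun _ => ?_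
  constructor
  · rintro ⟨q, hq, h1⟩
    exact ⟨q, (wl_gs.1 hq).1, h1⟩
  · rintro ⟨q, hq, h1⟩
    refine ⟨q, wl_gs.2 ⟨hq, ?_⟩, h1⟩
    obtain ⟨q', hq', c, -, h2⟩ := h.sub _ h1
    obtain ⟨rfl, -⟩ := ZFSet.pair_injective h2
    exact fun i hi => hs (wl_dm hq' hi)

end SE.UZ
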